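import Pool.Agent.W289.ZS.Stm

set_option autoImplicit false

namespace Pool.Agent.W230.ZS

open Finset W289.ZS

universe u v

lemma pick {σ : Type*} [DecidableEq σ] (q : ℕ) (hq : 1 ≤ q) (k : σ → ℕ) (Y : Finset σ) :
    ∀ T : ℕ, T ≤ q * ∑ v ∈ Y, k v → ∃ s : σ → ℕ, (∀ v, s v ≤ q * k v) ∧
      (∀ v, v ∉ Y → s v = 0) ∧ ∑ v ∈ Y, s v = T ∧ T / q ≤ ∑ v ∈ Y, s v / q := by
  induction Y using Finset.induction_on with
  | empty =>
    intro T hT
    refine ⟨fun _ => 0, fun v => Nat.zero_le _, fun v _ => rfl, ?_, ?_⟩
    · simp at hT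
      simp [hT]
    · simp at hT
      simp [hT]
  | insert a Y ha ih =>
    intro T hT
    rw [sum_insert ha, mul_add] at hT
    have hY : ∀ f : σ → ℕ, ∀ c : ℕ, ∀ g : ℕ → ℕ,
        ∑ v ∈ Y, g (Function.update f a c v) = ∑ v ∈ Y, g (f v) := by
      intro f c g
      refine sum_congr rfl fun v hv => ?_
      rw [Function.update_of_ne]
      rintro rfl
      exact ha hv
    by_cases h : T ≤ q * k a
    · refine ⟨Function.update (fun _ => 0) a T, fun v => ?_, fun v hv => ?_, ?_, ?_⟩
      · by_cases hva : v = a
        · subst hva; rw [Function.update_self]; exact h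
        · rw [Function.update_of_ne hva]; exact Nat.zero_le _
      · rw [Function.update_of_ne]
        rintro rfl
        exact hv (mem_insert_self _ _)
      · rw [sum_insert ha, Function.update_self, hY (fun _ => 0) T (fun x => x)]
        simp
      · rw [sum_insert ha, Function.update_self, hY (fun _ => 0) T (fun x => x / q)]
        simp
    · push Not at h
      obtain ⟨s, h1, h2, h3, h4⟩ := ih (T - q * k a) (by omega)
      refine ⟨Function.update s a (q * k a), fun v => ?_, fun v hv => ?_, ?_, ?_⟩
      · by_cases hva : v = a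
        · subst hva; rw [Function.update_self]
        · rw [Function.update_of_ne hva]; exact h1 v
      · have hva : v ≠ a := by
          rintro rfl
          exact hv (mem_insert_self _ _)
        rw [Function.update_of_ne hva]
        exact h2 v fun hvY => hv (mem_insert_of_mem hvY)
      · rw [sum_insert ha, Function.update_self, hY s _ (fun x => x), h3]
        omega
      · rw [sum_insert ha, Function.update_self, hY s _ (fun x => x / q)]
        have e1 : T = q * k a + (T - q * k a) := by omega
        have e2 : T / q = k a + (T - q * k a) / q := by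
          conv_lhs => rw [e1]
          rw [Nat.mul_add_div (by omega)]
        rw [e2, Nat.mul_div_cancel_left _ (by omega)]
        omega

theorem split : TaskSplit.{u, v} := by
  intro σ _ Y s q M hq h1 h2
  have hk : ∀ n : ℕ, n ≤ q * ((n - 1) / q) + (if n ≠ 0 then q else 0) := by
    intro n
    split_ifs with hn
    · have a1 := Nat.div_add_mod (n - 1) q
      have a2 := Nat.mod_lt (n - 1) (show q > 0 by omega)
      omega
    · push Not at hn
      subst hn
      simp
  have hk2 : ∀ n : ℕ, n ≠ 0 → q * ((n - 1) / q) < n := by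
    intro n hn
    have := Nat.mul_div_le (n - 1) q
    omega
  have hT : cnt Y s - M ≤ q * ∑ v ∈ Y, (s v - 1) / q := by
    have h3 : cnt Y s ≤ q * ∑ v ∈ Y, (s v - 1) / q + q * W289.ZS.sup Y s := by
      unfold cnt W289.ZS.sup
      rw [card_filter, mul_sum, mul_sum, ← sum_add_distrib]
      refine sum_le_sum fun v _ => ?_
      have := hk (s v)
      by_cases hs : s v ≠ 0
      · rw [if_pos hs] at this ⊢
        omega
      · rw [if_neg hs] at this ⊢
        omega
    omega
  obtain ⟨t, ht1, ht2, ht3, ht4⟩ := pick q hq (fun v => (s v - 1) / q) Y _ hT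
  have hle : ∀ v, t v ≤ s v := by
    intro v
    have := ht1 v
    by_cases hs : s v = 0
    · rw [hs] at this ⊢
      simpa using this
    · exact this.trans (hk2 _ hs).le
  refine ⟨fun v => if v ∈ Y then s v - t v else 0, fun v => if v ∈ Y then t v else s v,
    ?_, ?_, ?_, ?_, ?_⟩
  · funext v
    simp only [Pi.add_apply]
    have := hle v
    split_ifs
    · omega
    · omega
  · intro v hv
    simp only [if_neg hv]
  · intro v hv hs
    simp only [if_pos hv]
    have a1 := ht1 v
    have a2 := hk2 _ hs
    omega
  · unfold cnt at *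
    have e1 : ∑ v ∈ Y, (if v ∈ Y then s v - t v else 0) = ∑ v ∈ Y, (s v - t v) :=
      sum_congr rfl fun v hv => by rw [if_pos hv]
    have e2 : ∑ v ∈ Y, (s v - t v) + ∑ v ∈ Y, t v = ∑ v ∈ Y, s v := by
      rw [← sum_add_distrib]
      exact sum_congr rfl fun v _ => Nat.sub_add_cancel (hle v)
    rw [e1]
    omega
  · have e1 : cnt Y (fun v => if v ∈ Y then t v else s v) = ∑ v ∈ Y, t v := by
      unfold cnt
      exact sum_congr rfl fun v hv => if_pos hv
    have e2 : ∑ v ∈ Y, (if v ∈ Y then t v else s v) / q = ∑ v ∈ Y, t v / q :=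
      sum_congr rfl fun v hv => by rw [if_pos hv]
    rw [e1, e2, ht3]
    exact ht4

end Pool.Agent.W230.ZS
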